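import Pool.Agent.H80.IndexFinal

/-! The complexity of the index sets `I_C`, for every `C`.

The definitions used are in `Pool.Agent.H80.ArithDefs` (`IsSigma`, `IsPi`) and
`Pool.Agent.H80.IndexDefs`. That `IsSigma 1` is the same as `REPred` is
`Pool.Agent.H80.isSigma_one_iff`. -/

namespace Pool.Agent.Results.MP_46183d_lc.IndexComplexity

open Pool.Agent.H80

/-- Effective enumerations exist (the standard one is `stdEnum`), and for every effective
enumeration `π` of the primitive recursive functions from finite strings to `{0,1}` and every set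
`C` of natural numbers:
* `I_C` is complete for the class `Γ_C`;
* if `C = ∅` then `I_C = ∅`, and if `C = {0}` then `I_C` is `Σ⁰₁`-complete;
* if `C` is finite and not contained in `{0}`, let `d` be the number of `m ≥ 1` such that exactly
  one of `m`, `m + 1` lies in `C`; then `I_C` is complete for `D_d(Σ⁰₂)` if `1 ∉ C`, and for the
  class of complements of `D_d(Σ⁰₂)` sets if `1 ∈ C`;
* if `C` is infinite and computable, c.e., `Π⁰₁`, `Σ⁰₂` or `Π⁰₂`, then `I_C` is `Σ⁰₃`-complete;
* in general `I_C` is `Σ⁰₃`-complete iff `C` is `Σ⁰₃` and has a selection;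
* above level three `I_C` and `C` have the same arithmetical location. -/
theorem result :
    (∃ π : ℕ → List ℕ → Bool, EffectiveEnum π) ∧
    ∀ π : ℕ → List ℕ → Bool, EffectiveEnum π → ∀ C : Set ℕ,
      CompleteFor (GammaC C) (indexI π C) ∧
      (C = ∅ → indexI π C = ∅) ∧
      (C = {0} → CompleteFor (fun X => IsSigma 1 (fun x => x ∈ X)) (indexI π C)) ∧
      (C.Finite → ¬ C ⊆ {0} → 1 ∉ C →
        CompleteFor (IsDiff 2 (changes C).ncard) (indexI π C)) ∧
      (C.Finite → 1 ∈ C →
        CompleteFor (fun X => IsDiff 2 (changes C).ncard Xᶜ) (indexI π C)) ∧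
      (C.Infinite →
        (ComputablePred (fun x => x ∈ C) ∨ REPred (fun x => x ∈ C) ∨ REPred (fun x => x ∉ C) ∨
          IsSigma 2 (fun x => x ∈ C) ∨ IsPi 2 (fun x => x ∈ C)) →
        CompleteFor (fun X => IsSigma 3 (fun x => x ∈ X)) (indexI π C)) ∧
      (CompleteFor (fun X => IsSigma 3 (fun x => x ∈ X)) (indexI π C) ↔
        IsSigma 3 (fun x => x ∈ C) ∧ HasSelection C) ∧
      (∀ n, 3 ≤ n → (IsSigma n (fun x => x ∈ indexI π C) ↔ IsSigma n (fun x => x ∈ C))) ∧
      (∀ n, 4 ≤ n → (IsPi n (fun x => x ∈ indexI π C) ↔ IsPi n (fun x => x ∈ C))) := by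
  refine ⟨⟨stdEnum, effectiveEnum_stdEnum⟩, fun π hπ C => ⟨gamma_complete hπ C, ?_, ?_,
    fun hC hC0 h1 => complete_finite_not hπ hC hC0 h1,
    fun hC h1 => complete_finite_mem hπ hC h1, ?_, complete_sigma_iff hπ C,
    fun n hn => isSigma_index_iff hπ C hn, fun n hn => isPi_index_iff hπ C hn⟩⟩
  · rintro rfl; exact index_empty
  · rintro rfl; exact complete_zero hπ
  · intro hC h
    apply complete_infinite hπ hC
    rcases h with h | h | h | h | h
    · exact Or.inl (h.sigma 2)
    · exact Or.inl (isSigma_one_iff.2 h).succ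
    · right
      have h1 : IsPi 1 (fun x => x ∈ C) := isSigma_one_iff.2 h
      exact h1.succ
    · exact Or.inl h
    · exact Or.inr h

end Pool.Agent.Results.MP_46183d_lc.IndexComplexity
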